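import Mathlib
import Pool.Agent.R354.EEcore

set_option autoImplicit false

/-!
# The main argument with the logarithmic measure for `e`
-/

namespace Pool.Agent.V5helper65.EE

open Real Pool.Agent.H43R2.Cplx.EMeas Pool.Agent.H364R2.EE Pool.Agent.R354.EE

/-- distance of `2 θ` to the integers for `θ = (P / d) e` -/
theorem dist2 (G : ℝ) (Q d : ℕ) (hQ : 1 ≤ Q) (hd : 1 ≤ d)
    (hG : ∀ n : ℕ, 2 ^ n < 8 * Q → (n : ℝ) ≤ G) (θ ρ : ℝ) (hρ0 : 0 ≤ ρ)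
    (hθ : |2 * θ - (Q : ℝ) / d * exp 1| ≤ ρ) (hρ : ρ * (16 * d * Q * (4 * G + 3)) < 1) (N : ℤ) :
    ρ < |2 * θ - N| := by
  have hQR : (1 : ℝ) ≤ Q := by exact_mod_cast hQ
  have hdR : (1 : ℝ) ≤ d := by exact_mod_cast hd
  obtain ⟨n, hn1, h1⟩ := lower Q hQ (d * N)
  have hnG := hG n hn1
  by_contra hc
  push Not at hc
  have h3 : |(Q : ℝ) / d * exp 1 - N| ≤ 2 * ρ := by
    have : (Q : ℝ) / d * exp 1 - N = -(2 * θ - (Q : ℝ) / d * exp 1) + (2 * θ - N) := by ring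
    rw [this]
    refine (abs_add_le _ _).trans ?_
    rw [abs_neg]
    linarith
  have h4 : (Q : ℝ) * exp 1 - ((d * N : ℤ) : ℝ) = d * ((Q : ℝ) / d * exp 1 - N) := by
    push_cast
    field_simp
  rw [h4, abs_mul, Nat.abs_cast, div_le_iff₀ (by positivity)] at h1
  have h5 : (d : ℝ) * |(Q : ℝ) / d * exp 1 - N| * (8 * (4 * n + 3) * Q) ≤
      d * (2 * ρ) * (8 * (4 * G + 3) * Q) := by
    apply mul_le_mul _ _ (by positivity) (by positivity)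
    · exact mul_le_mul_of_nonneg_left h3 (by positivity)
    · apply mul_le_mul_of_nonneg_right _ (by positivity)
      linarith
  have h6 : (d : ℝ) * (2 * ρ) * (8 * (4 * G + 3) * Q) = ρ * (16 * d * Q * (4 * G + 3)) := by ring
  linarith

set_option maxHeartbeats 4000000 in
theorem core2 (G : ℝ) (hG0 : 0 ≤ G) (j k c m n0 : ℕ)
    (hG : ∀ n : ℕ, 2 ^ n < 576 * (j * k ^ 3) ^ 2 → (n : ℝ) ≤ G)
    (ε τ : ℝ) (hj : 1 ≤ j) (hk : 1 ≤ k) (hkc : 2 * k ≤ c)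
    (hn0 : q n0 ≤ c) (hK : 22 * 10 ^ 6 * ((j : ℝ) * (k : ℝ) ^ 3) ^ 6 * (4 * G + 3) ≤ n0)
    (h1 : (k : ℝ) ^ 2 ≤ τ * (c : ℝ) ^ 2) (h2 : (c : ℝ) ^ 6 * |ε| ≤ τ) (h3 : τ * n0 ≤ 1)
    (h4 : ∀ n : ℕ, q n ≤ j * c → 10 ^ 6 * ((j : ℝ) * k) ^ 4 * τ * (4 * n + 4) ^ 3 ≤ 1)
    (hlog : (m : ℝ) * log (((c : ℝ) + k) / ((c : ℝ) - k)) = j * exp 1 - ε) : False := by
  obtain ⟨A1, A3⟩ := estimates j k c m ε τ hj hk hkc h1 h2 hlog
  have hjR : (1 : ℝ) ≤ j := by exact_mod_cast hj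
  have hkR : (1 : ℝ) ≤ k := by exact_mod_cast hk
  have hkcR : 2 * (k : ℝ) ≤ c := by exact_mod_cast hkc
  have hcR : (2 : ℝ) ≤ c := by linarith
  have hcpos : (0 : ℝ) < c := by linarith
  have he1 := Real.exp_one_gt_d9
  have he2 := Real.exp_one_lt_d9
  obtain ⟨s, hs⟩ : ∃ s : ℕ, s = j * k := ⟨_, rfl⟩
  have hsR : (s : ℝ) = (j : ℝ) * k := by rw [hs]; push_cast; ring
  have hs1 : 1 ≤ s := by rw [hs]; exact Nat.mul_pos hj hk
  have hs1R : (1 : ℝ) ≤ s := by exact_mod_cast hs1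
  rw [← hsR] at A1 h4
  -- powers of `s`
  have ps : ∀ a b : ℕ, a ≤ b → (s : ℝ) ^ a ≤ (s : ℝ) ^ b := fun a b hab =>
    pow_le_pow_right₀ hs1R hab
  have ps1 : ∀ a : ℕ, (1 : ℝ) ≤ (s : ℝ) ^ a := fun a => one_le_pow₀ hs1R
  obtain ⟨T, hT⟩ : ∃ T : ℝ, T = (j : ℝ) * (k : ℝ) ^ 3 := ⟨_, rfl⟩
  rw [← hT] at hK
  have hk3 : (k : ℝ) ≤ (k : ℝ) ^ 3 := by
    have : (k : ℝ) ^ 1 ≤ (k : ℝ) ^ 3 := pow_le_pow_right₀ hkR (by norm_num)
    simpa using this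
  have hsT : (s : ℝ) ≤ T := by
    rw [hsR, hT]
    exact mul_le_mul_of_nonneg_left hk3 (by linarith)
  have hT1 : 1 ≤ T := hs1R.trans hsT
  have pT : ∀ a b : ℕ, a ≤ b → T ^ a ≤ T ^ b := fun a b hab =>
    pow_le_pow_right₀ hT1 hab
  have pT1 : ∀ a : ℕ, (1 : ℝ) ≤ T ^ a := fun a => one_le_pow₀ hT1
  have psT : ∀ a : ℕ, (s : ℝ) ^ a ≤ T ^ a := fun a => pow_le_pow_left₀ (by linarith) hsT a
  have hK4 : 10 ^ 4 * T ^ 6 ≤ n0 := by
    have e1 : 22 * 10 ^ 6 * T ^ 6 * 3 ≤ 22 * 10 ^ 6 * T ^ 6 * (4 * G + 3) :=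
      mul_le_mul_of_nonneg_left (by linarith) (by positivity)
    have := pT1 6
    linarith
  have hn0R : (10 ^ 4 : ℝ) ≤ n0 := by
    have := pT1 6
    linarith
  have hn0big : 10 ^ 4 ≤ n0 := by exact_mod_cast hn0R
  have hτ0 : 0 ≤ τ := (by positivity : (0 : ℝ) ≤ (c : ℝ) ^ 6 * |ε|).trans h2
  have hτ1 : τ ≤ 1 / n0 := by
    rw [le_div_iff₀ (by linarith)]; exact h3
  have hτ2 : 10 ^ 4 * τ ≤ 1 := by nlinarith
  -- the targets
  obtain ⟨u, hu⟩ : ∃ u : ℝ, u = (s : ℝ) ^ 2 * exp 1 / 3 := ⟨_, rfl⟩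
  obtain ⟨v, hv⟩ : ∃ v : ℝ, v = 36 / 7 * ((j : ℝ) ^ 2 * (k : ℝ) ^ 6 * exp 1) := ⟨_, rfl⟩
  rw [← hu] at A1
  rw [← hv] at A3
  have hjk : (j : ℝ) ^ 2 * (k : ℝ) ^ 6 = T ^ 2 := by
    rw [hT]; ring
  have hu0 : 0 < u := by rw [hu]; positivity
  have hv0 : 0 < v := by rw [hv]; positivity
  have hu1 : u ≤ 0.91 * (s : ℝ) ^ 2 := by
    rw [hu]
    have : (s : ℝ) ^ 2 * exp 1 ≤ (s : ℝ) ^ 2 * 2.72 :=
      mul_le_mul_of_nonneg_left (by linarith) (by positivity)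
    linarith
  have hv1 : v ≤ 14 * T ^ 2 := by
    rw [hv]
    have e1 : (j : ℝ) ^ 2 * (k : ℝ) ^ 6 * exp 1 ≤ T ^ 2 * 2.72 :=
      mul_le_mul (le_of_eq hjk) (by linarith) (exp_pos 1).le (by positivity)
    have := pT1 2
    linarith
  obtain ⟨θ1, hθ1⟩ : ∃ θ1 : ℝ, θ1 = ((j : ℝ) * c) * (((j : ℝ) * c) * exp 1 - 2 * m * k) := ⟨_, rfl⟩
  obtain ⟨θ3, hθ3⟩ : ∃ θ3 : ℝ, θ3 = (3 * (j : ℝ) * c * (5 * (c : ℝ) ^ 2 - 3 * (k : ℝ) ^ 2)) *
      ((3 * (j : ℝ) * c * (5 * (c : ℝ) ^ 2 - 3 * (k : ℝ) ^ 2)) * exp 1 -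
      2 * m * k * (15 * (c : ℝ) ^ 2 - 4 * (k : ℝ) ^ 2)) := ⟨_, rfl⟩
  rw [← hθ1] at A1
  rw [← hθ3] at A3
  obtain ⟨A1l, A1u⟩ := abs_le.1 A1
  obtain ⟨A3l, A3u⟩ := abs_le.1 A3
  have hτu : 32 * τ * u ≤ 1 / 100 * u := mul_le_mul_of_nonneg_right (by linarith) hu0.le
  have hτv : 32 * τ * v ≤ 1 / 100 * v := mul_le_mul_of_nonneg_right (by linarith) hv0.le
  have hθ1pos : 0 < θ1 := by linarith
  have hθ3pos : 0 < θ3 := by linarith
  have hs2T := psT 2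
  have hT2 := pT1 2
  have hθ1C : θ1 ≤ 15 * T ^ 2 := by linarith
  have hθ3C : θ3 ≤ 15 * T ^ 2 := by linarith
  -- the constant `ρ`
  obtain ⟨ρ, hρ⟩ : ∃ ρ : ℝ, ρ = 12 * (15 * T ^ 2) ^ 2 / n0 := ⟨_, rfl⟩
  have hn0pos : (0 : ℝ) < n0 := by linarith
  have hρ0 : 0 ≤ ρ := by rw [hρ]; positivity
  have hρ' : ρ * n0 = 2700 * T ^ 4 := by
    rw [hρ]; field_simp; ring
  have hτρ : ∀ A : ℝ, A ≤ 2700 * T ^ 4 → A * τ ≤ ρ := by
    intro A hA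
    have e1 : A * τ ≤ (2700 * T ^ 4) * (1 / n0) :=
      mul_le_mul hA hτ1 hτ0 (by positivity)
    have e2 : (2700 * T ^ 4) * (1 / n0) = ρ := by
      rw [← hρ']; field_simp
    linarith
  have hρc : ∀ B : ℝ, B ≤ 8064 * T ^ 2 * (4 * G + 3) → ρ * B < 1 := by
    intro B hB
    have e1 : ρ * B ≤ ρ * (8064 * T ^ 2 * (4 * G + 3)) := mul_le_mul_of_nonneg_left hB hρ0
    have e2 : ρ * (8064 * T ^ 2 * (4 * G + 3)) * n0 < 1 * n0 := by
      have : ρ * (8064 * T ^ 2 * (4 * G + 3)) * n0 = 21772800 * T ^ 6 * (4 * G + 3) := by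
        calc ρ * (8064 * T ^ 2 * (4 * G + 3)) * n0 = (ρ * n0) * (8064 * T ^ 2 * (4 * G + 3)) := by ring
          _ = (2700 * T ^ 4) * (8064 * T ^ 2 * (4 * G + 3)) := by rw [hρ']
          _ = _ := by ring
      rw [this]
      have h7 : 0 < T ^ 6 * (4 * G + 3) := by positivity
      linarith
    have e3 := lt_of_mul_lt_mul_right e2 hn0pos.le
    linarith
  have hG1 : 8 * (2 * s ^ 2) ≤ 576 * (j * k ^ 3) ^ 2 := by
    have e1 : s ≤ j * k ^ 3 := by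
      rw [hs]
      exact Nat.mul_le_mul_left _ (Nat.le_self_pow (by norm_num) k)
    have e2 : s ^ 2 ≤ (j * k ^ 3) ^ 2 := Nat.pow_le_pow_left e1 2
    omega
  -- structure of the first fraction
  obtain ⟨n, t, hn, ht, ha, hb, hθD⟩ := struct (15 * T ^ 2) (by linarith) n0 (by omega)
    (2 * m * k) (j * c) (by
      have : (c : ℤ) ≤ j * c := by
        have : c ≤ j * c := Nat.le_mul_of_pos_left c hj
        exact_mod_cast this
      have h5 : (q n0 : ℤ) ≤ c := by exact_mod_cast hn0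
      linarith) (by
      push_cast
      rw [← hθ1]; exact hθ1pos) (by
      push_cast
      rw [← hθ1]; exact hθ1C) (by
      intro N
      push_cast
      rw [← hθ1, ← hρ]
      refine dist2 G (2 * s ^ 2) 3 (by
        have : 1 ≤ s ^ 2 := Nat.one_le_pow _ _ hs1
        omega) (by norm_num) (fun n hn => hG n (hn.trans_le hG1)) θ1 ρ hρ0 ?_ ?_ N
      · have e1 : 2 * θ1 - ((2 * s ^ 2 : ℕ) : ℝ) / ((3 : ℕ) : ℝ) * exp 1 = 2 * (θ1 - u) := by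
          rw [hu]; push_cast; ring
        rw [e1, abs_mul, abs_two]
        have e2 : 2 * |θ1 - u| ≤ (64 * u) * τ := by linarith
        refine e2.trans (hτρ _ ?_)
        have := pT 2 4 (by norm_num)
        linarith
      · push_cast
        apply hρc
        have e3 : 16 * 3 * (2 * (s : ℝ) ^ 2) * (4 * G + 3) ≤ 16 * 3 * (2 * T ^ 2) * (4 * G + 3) := by
          apply mul_le_mul_of_nonneg_right _ (by linarith)
          linarith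
        have e4 : 0 ≤ T ^ 2 * (4 * G + 3) := by positivity
        linarith)
  -- structure of the second fraction
  have hsub : (0 : ℤ) < 5 * (c : ℤ) ^ 2 - 3 * (k : ℤ) ^ 2 := by
    have e1 : (2 * (k : ℤ)) ≤ c := by exact_mod_cast hkc
    have e2 : (1 : ℤ) ≤ k := by exact_mod_cast hk
    nlinarith
  obtain ⟨n', t3, hn', ht3, ha3, hb3, hθ3D⟩ := struct (15 * T ^ 2) (by linarith) n0 (by omega)
    (2 * m * k * (15 * c ^ 2 - 4 * k ^ 2)) (3 * j * c * (5 * c ^ 2 - 3 * k ^ 2)) (by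
      have h5 : (q n0 : ℤ) ≤ c := by exact_mod_cast hn0
      have h6 : (1 : ℤ) ≤ j := by exact_mod_cast hj
      have h7 : (0 : ℤ) ≤ c := by positivity
      have h8 : (c : ℤ) ≤ 3 * j * c := by nlinarith
      have h9 : (3 * j * c : ℤ) * 1 ≤ 3 * j * c * (5 * c ^ 2 - 3 * k ^ 2) :=
        mul_le_mul_of_nonneg_left (by omega) (by positivity)
      linarith) (by
      push_cast
      rw [← hθ3]; exact hθ3pos) (by
      push_cast
      rw [← hθ3]; exact hθ3C) (by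
      intro N
      push_cast
      rw [← hθ3, ← hρ]
      refine dist2 G (72 * (j ^ 2 * k ^ 6)) 7 (by
        have : 1 ≤ j ^ 2 * k ^ 6 := Nat.mul_pos (Nat.one_le_pow _ _ hj) (Nat.one_le_pow _ _ hk)
        omega) (by norm_num) (fun n hn => hG n (hn.trans_le (le_of_eq (by ring)))) θ3 ρ hρ0 ?_ ?_ N
      · have e1 : 2 * θ3 - ((72 * (j ^ 2 * k ^ 6) : ℕ) : ℝ) / ((7 : ℕ) : ℝ) * exp 1 =
            2 * (θ3 - v) := by
          rw [hv]; push_cast; ring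
        rw [e1, abs_mul, abs_two]
        have e2 : 2 * |θ3 - v| ≤ (64 * v) * τ := by linarith
        refine e2.trans (hτρ _ ?_)
        have := pT 2 4 (by norm_num)
        linarith
      · push_cast
        apply hρc
        rw [hjk]
        apply le_of_eq
        ring)
  push_cast at hθD hθ3D
  rw [← hθ1] at hθD
  rw [← hθ3] at hθ3D
  -- the integer `R`
  obtain ⟨x, y, hxy⟩ := coprime n'
  obtain ⟨R, hRdef⟩ : ∃ R : ℤ, R = x * (3 * q n * (5 * (t * q n) ^ 2 - 3 * (s : ℤ) ^ 2)) +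
    y * (r n * (15 * (t * q n) ^ 2 - 4 * (s : ℤ) ^ 2)) := ⟨_, rfl⟩
  have hsZ : (s : ℤ) = j * k := by rw [hs]; push_cast; ring
  have hR : (j : ℤ) ^ 2 * t3 = t * R := by
    have e1 : ((j : ℤ) ^ 2 * t3) * q n' = t * (3 * q n * (5 * (t * q n) ^ 2 - 3 * (s : ℤ) ^ 2)) := by
      rw [hsZ, ← hb]
      linear_combination (-(j : ℤ) ^ 2) * hb3 +
        (3 * (5 * ((j : ℤ) * c) ^ 2 - 3 * (j * k) ^ 2)) * hb
    have e2 : ((j : ℤ) ^ 2 * t3) * r n' = t * (r n * (15 * (t * q n) ^ 2 - 4 * (s : ℤ) ^ 2)) := by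
      rw [hsZ, ← hb]
      linear_combination (-(j : ℤ) ^ 2) * ha3 +
        ((15 * ((j : ℤ) * c) ^ 2 - 4 * (j * k) ^ 2)) * ha
    rw [hRdef]
    linear_combination (-((j : ℤ) ^ 2 * t3)) * hxy + x * e1 + y * e2
  have hR0 : 0 < R := by
    have e1 : 0 < (j : ℤ) ^ 2 * t3 := by
      have : (1 : ℤ) ≤ j := by exact_mod_cast hj
      positivity
    rw [hR] at e1
    exact (mul_pos_iff_of_pos_left (by omega)).1 e1
  obtain ⟨R', hR'⟩ : ∃ R' : ℕ, (R' : ℤ) = R := ⟨R.toNat, Int.toNat_of_nonneg hR0.le⟩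
  have hRR : (R' : ℝ) * t = (j : ℝ) ^ 2 * t3 := by
    have e1 : (R' : ℤ) * t = (j : ℤ) ^ 2 * t3 := by rw [hR', hR]; ring
    exact_mod_cast e1
  -- bound for `n'`
  have hnR : (10 ^ 4 : ℝ) ≤ n := hn0R.trans (by exact_mod_cast hn)
  have hn0n : (n0 : ℝ) ≤ n := by exact_mod_cast hn
  have hn0n' : (n0 : ℝ) ≤ n' := by exact_mod_cast hn'
  have hqn := qpos n
  have htR : (1 : ℝ) ≤ t := by exact_mod_cast ht
  have ht3R : (1 : ℝ) ≤ t3 := by exact_mod_cast ht3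
  have hbR : (j : ℝ) * c = t * q n := by exact_mod_cast hb
  have hnn : n' ≤ 4 * n := by
    by_contra hc
    push Not at hc
    have e1 : (q n : ℝ) ^ 4 ≤ q n' := by
      have : q n ^ 4 ≤ q n' := (q_pow4 n).trans (q_mono hc.le)
      exact_mod_cast this
    have e2 : (q n' : ℝ) ≤ 3 * (j : ℝ) * c * (5 * (c : ℝ) ^ 2 - 3 * (k : ℝ) ^ 2) := by
      have e3 : (3 * (j : ℝ) * c * (5 * (c : ℝ) ^ 2 - 3 * (k : ℝ) ^ 2)) = t3 * q n' := by
        exact_mod_cast hb3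
      rw [e3]
      exact le_mul_of_one_le_left (qpos n').le ht3R
    have e4 : 3 * (j : ℝ) * c * (5 * (c : ℝ) ^ 2 - 3 * (k : ℝ) ^ 2) ≤ 15 * s * (t * q n) ^ 3 := by
      have e5 : (c : ℝ) ≤ t * q n := by rw [← hbR]; exact le_mul_of_one_le_left hcpos.le hjR
      have e6 : (c : ℝ) ^ 3 ≤ (t * q n) ^ 3 := pow_le_pow_left₀ hcpos.le e5 3
      have e7 : (j : ℝ) ≤ s := by
        rw [hsR]; exact le_mul_of_one_le_right (by linarith) hkR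
      have e8 : (j : ℝ) * (c : ℝ) ^ 3 ≤ s * (t * q n) ^ 3 :=
        mul_le_mul e7 e6 (by positivity) (by positivity)
      have e9 : 0 ≤ (j : ℝ) * c * (k : ℝ) ^ 2 := by positivity
      have e10 : 3 * (j : ℝ) * c * (5 * (c : ℝ) ^ 2 - 3 * (k : ℝ) ^ 2) =
        15 * ((j : ℝ) * (c : ℝ) ^ 3) - 9 * ((j : ℝ) * c * (k : ℝ) ^ 2) := by ring
      rw [e10]
      linarith
    have e5 : (q n : ℝ) ≤ 15 * s * (t : ℝ) ^ 3 := by
      have e6 : (q n : ℝ) * (q n : ℝ) ^ 3 ≤ (15 * s * (t : ℝ) ^ 3) * (q n : ℝ) ^ 3 := by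
        calc (q n : ℝ) * (q n : ℝ) ^ 3 = (q n : ℝ) ^ 4 := by ring
          _ ≤ 15 * (s : ℝ) * ((t : ℝ) * q n) ^ 3 := (e1.trans e2).trans e4
          _ = _ := by ring
      exact le_of_mul_le_mul_right e6 (by positivity)
    have e6 : (t : ℝ) ^ 2 ≤ 6 * ((s : ℝ) ^ 2 * n) := by
      have e7 := h_upper n (by omega)
      have e8 : h n ≤ 1 / 2 := by
        refine e7.trans ?_
        apply one_div_le_one_div_of_le (by norm_num)
        nlinarith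
      have e9 := D_eq n
      have e10 : 1 / 2 ≤ (2 * (n : ℝ) + 1) * D n := by linarith
      have e11 : (t : ℝ) ^ 2 * (1 / 2) ≤ (t : ℝ) ^ 2 * ((2 * (n : ℝ) + 1) * D n) :=
        mul_le_mul_of_nonneg_left e10 (by positivity)
      have e12 : (t : ℝ) ^ 2 * ((2 * (n : ℝ) + 1) * D n) = (2 * (n : ℝ) + 1) * θ1 := by
        rw [hθD]; ring
      have e13 : θ1 ≤ (s : ℝ) ^ 2 := by
        have := ps1 2
        linarith
      have e14 : (2 * (n : ℝ) + 1) * θ1 ≤ (3 * (n : ℝ)) * (s : ℝ) ^ 2 :=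
        mul_le_mul (by linarith) e13 hθ1pos.le (by positivity)
      linarith
    have e7 : (t : ℝ) ^ 3 ≤ 36 * ((s : ℝ) ^ 4 * (n : ℝ) ^ 2) := by
      have e8 : (t : ℝ) ^ 3 ≤ (t : ℝ) ^ 4 := pow_le_pow_right₀ htR (by norm_num)
      have e9 : ((t : ℝ) ^ 2) ^ 2 ≤ (6 * ((s : ℝ) ^ 2 * n)) ^ 2 :=
        pow_le_pow_left₀ (by positivity) e6 2
      calc (t : ℝ) ^ 3 ≤ (t : ℝ) ^ 4 := e8
        _ = ((t : ℝ) ^ 2) ^ 2 := by ring
        _ ≤ (6 * ((s : ℝ) ^ 2 * n)) ^ 2 := e9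
        _ = _ := by ring
    have e8 : (q n : ℝ) ≤ 540 * ((s : ℝ) ^ 5 * (n : ℝ) ^ 2) := by
      have := mul_le_mul_of_nonneg_left e7 (show (0 : ℝ) ≤ 15 * s by positivity)
      calc (q n : ℝ) ≤ 15 * s * (t : ℝ) ^ 3 := e5
        _ ≤ 15 * s * (36 * ((s : ℝ) ^ 4 * (n : ℝ) ^ 2)) := this
        _ = _ := by ring
    have e9 : (s : ℝ) ^ 5 ≤ n := by
      have := psT 5
      have := pT 5 6 (by norm_num)
      have := pT1 6
      linarith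
    have e10 : (s : ℝ) ^ 5 * (n : ℝ) ^ 2 ≤ n * (n : ℝ) ^ 2 :=
      mul_le_mul_of_nonneg_right e9 (by positivity)
    have e11 : 2160 * (n : ℝ) ^ 3 ≤ q n := by exact_mod_cast q_big n (by omega)
    have e12 : 0 < (n : ℝ) ^ 3 := by positivity
    have e13 : (n : ℝ) * (n : ℝ) ^ 2 = (n : ℝ) ^ 3 := by ring
    linarith
  -- the final comparison
  have hs24 : 1000 * (s : ℝ) ^ 4 ≤ n0 := by
    have := psT 4
    have := pT 4 6 (by norm_num)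
    have := pT1 6
    linarith
  refine compare R' s n n' (θ1 / u - 1) (θ3 / v - 1) τ (by omega) (by omega) (by omega) (by omega)
    hnn (hs24.trans hn0n) (hs24.trans hn0n') ?_ ?_ ?_ ?_
  · have e1 : θ1 / u - 1 = (θ1 - u) / u := by field_simp
    rw [e1, abs_div, abs_of_pos hu0, div_le_iff₀ hu0]
    exact A1
  · have e1 : θ3 / v - 1 = (θ3 - v) / v := by field_simp
    rw [e1, abs_div, abs_of_pos hv0, div_le_iff₀ hv0]
    exact A3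
  · apply h4 n
    have e1 : (q n : ℤ) ≤ j * c := by
      rw [hb]
      have : (0 : ℤ) ≤ q n := by positivity
      nlinarith
    exact_mod_cast e1
  · have e1 : (1 + (θ1 / u - 1)) = θ1 / u := by ring
    have e2 : (1 + (θ3 / v - 1)) = θ3 / v := by ring
    rw [e1, e2, ← D_eq, ← D_eq, hθD, hθ3D]
    have e3 : 7 * ((j : ℝ) ^ 4 * v) = 108 * (s : ℝ) ^ 4 * u := by
      rw [hv, hu, hsR]; ring
    have e4 : (R' : ℝ) ^ 2 * (t : ℝ) ^ 2 = (j : ℝ) ^ 4 * (t3 : ℝ) ^ 2 := by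
      calc (R' : ℝ) ^ 2 * (t : ℝ) ^ 2 = ((R' : ℝ) * t) ^ 2 := by ring
        _ = ((j : ℝ) ^ 2 * t3) ^ 2 := by rw [hRR]
        _ = _ := by ring
    have e5 : 7 * (R' : ℝ) ^ 2 * (t : ℝ) ^ 2 / u = 108 * (s : ℝ) ^ 4 * (t3 : ℝ) ^ 2 / v := by
      rw [div_eq_div_iff hu0.ne' hv0.ne']
      linear_combination (7 * v) * e4 + ((t3 : ℝ) ^ 2) * e3
    have e6 : 7 * (R' : ℝ) ^ 2 * (2 * n + 1) * ((2 * (n' : ℝ) + 1) * D n' *
        ((t : ℝ) ^ 2 * D n / u)) =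
      ((2 * (n : ℝ) + 1) * (2 * n' + 1) * D n * D n') * (7 * (R' : ℝ) ^ 2 * (t : ℝ) ^ 2 / u) := by
      ring
    have e7 : 108 * (s : ℝ) ^ 4 * (2 * n' + 1) * ((2 * (n : ℝ) + 1) * D n *
        ((t3 : ℝ) ^ 2 * D n' / v)) =
      ((2 * (n : ℝ) + 1) * (2 * n' + 1) * D n * D n') * (108 * (s : ℝ) ^ 4 * (t3 : ℝ) ^ 2 / v) := by
      ring
    rw [e6, e7, e5]

end Pool.Agent.V5helper65.EE
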