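import Mathlib
import Pool.Agent.Results.MP_58ae59_nt.PowersNearOne

set_option autoImplicit false

namespace Pool.Agent.V5helper65.EE

open Real Pool.Agent.H43R2.Cplx.EMeas Pool.Agent.H364R2.EE
open Pool.Agent.Results.MP_58ae59_nt.PowersNearOne

/-- the coordinates with a general sign -/
theorem coordsS (σ : ℤ) (hσ : σ = 1 ∨ σ = -1) (n : ℕ) (a b : ℤ) (ε : ℝ)
    (hε : ε = σ * ((b : ℝ) * exp 1 - a)) :
    ∃ (X Y s : ℤ), (s = 1 ∨ s = -1) ∧ 2 * a = X * r n + Y * r (n + 1) ∧
      2 * b = X * q n + Y * q (n + 1) ∧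
      (X : ℝ) = b * I (n + 1) + s * ε * q (n + 1) ∧
      (Y : ℝ) = b * I n - s * ε * q n := by
  obtain ⟨X, Y, ha, hb, hX, hY⟩ := coords n a b
  have hσ2 : ((σ : ℝ)) * σ = 1 := by
    rcases hσ with h | h <;> rw [h] <;> norm_num
  refine ⟨X, Y, (-1) ^ n * σ, ?_, ha, hb, ?_, ?_⟩
  · rcases neg_one_pow_eq_or ℤ n with h1 | h1 <;> rcases hσ with h2 | h2 <;> rw [h1, h2] <;> simp
  · rw [hX, hε]
    push_cast
    linear_combination (-((-1 : ℝ) ^ n * ((b : ℝ) * exp 1 - a) * (q (n + 1) : ℝ))) * hσ2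
  · rw [hY, hε]
    push_cast
    linear_combination (((-1 : ℝ) ^ n * ((b : ℝ) * exp 1 - a) * (q n : ℝ))) * hσ2

theorem to_intS (s X Y : ℤ) (hs : s = 1 ∨ s = -1) (θ K : ℝ)
    (h : |(X : ℝ) * Y - 2 * s * θ| ≤ K) : ∃ N : ℤ, |2 * θ - N| ≤ K := by
  refine ⟨s * (X * Y), ?_⟩
  have hs2 : (s : ℝ) * s = 1 := by
    rcases hs with h | h <;> rw [h] <;> norm_num
  have hsa : |(s : ℝ)| = 1 := by
    rcases hs with h | h <;> rw [h] <;> norm_num
  have h1 : 2 * θ - ((s * (X * Y) : ℤ) : ℝ) = -(s : ℝ) * ((X : ℝ) * Y - 2 * s * θ) := by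
    push_cast
    linear_combination (-2 * θ) * hs2
  rw [h1, abs_mul, abs_neg, hsa, one_mul]
  exact h

theorem abs_bound (s A B C : ℝ) (hs : |s| = 1) (hA : 0 < A) (hB : 0 < B) (hC : 0 < C) :
    |A - 2 * s * B - C| ≤ A + 2 * B + C := by
  have e1 : |2 * s * B| = 2 * B := by
    rw [abs_mul, abs_mul, hs, abs_of_pos hB]; norm_num
  refine (abs_sub _ _).trans ?_
  rw [abs_of_pos hC]
  refine add_le_add ((abs_sub _ _).trans ?_) le_rfl
  rw [abs_of_pos hA, e1]

/-- if `b (b e - a) = ± θ` is bounded and `b` is large, then `a / b` is one of the fractions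
`r n / q n`, or `2 θ` is close to an integer -/
theorem nearS (σ : ℤ) (hσ : σ = 1 ∨ σ = -1) (C : ℝ) (hC : 1 ≤ C) (n : ℕ) (hn : 2 ≤ n)
    (a b : ℤ) (hqb : (q n : ℤ) ≤ b)
    (hbq : b < q (n + 1)) (h0 : 0 < (b : ℝ) * (σ * (b * exp 1 - a)))
    (h1 : (b : ℝ) * (σ * (b * exp 1 - a)) ≤ C) :
    (∃ t : ℤ, a = t * r n ∧ b = t * q n) ∨
      ∃ N : ℤ, |2 * ((b : ℝ) * (σ * (b * exp 1 - a))) - N| ≤ 12 * C ^ 2 / n := by
  have hb0 : 0 < b := by
    have := (q_pos n).1
    omega
  have hbR : (0 : ℝ) < b := by exact_mod_cast hb0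
  have hεpos : 0 < (σ : ℝ) * ((b : ℝ) * exp 1 - a) := by
    by_contra hc
    have := mul_nonpos_of_nonneg_of_nonpos hbR.le (not_lt.mp hc)
    linarith
  have hqbR : (q n : ℝ) ≤ b := by exact_mod_cast hqb
  have hbqR : (b : ℝ) < q (n + 1) := by exact_mod_cast hbq
  obtain ⟨hq, hq1, hi, hi', hqi, hqq, hqi'⟩ := basics1 n (by omega)
  have hnR : (2 : ℝ) ≤ n := by exact_mod_cast hn
  have hnpos : (0 : ℝ) < n := by linarith
  rcases lt_or_ge (b : ℝ) (2 * C * q n) with hcase | hcase
  · -- coordinates at level `n - 1`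
    right
    obtain ⟨m, rfl⟩ : ∃ m, n = m + 1 := ⟨n - 1, by omega⟩
    obtain ⟨hq', -, hj, -, hqj, hqq', hqj'⟩ := basics1 m (by omega)
    obtain ⟨X, Y, s, hs, ha, hbb, hX, hY⟩ := coordsS σ hσ m a b _ rfl
    generalize hε : (σ : ℝ) * ((b : ℝ) * exp 1 - a) = ε at *
    apply to_intS s X Y hs
    have hsR : (s : ℝ) * s = 1 := by
      rcases hs with h | h <;> rw [h] <;> norm_num
    have hsa : |(s : ℝ)| = 1 := by
      rcases hs with h | h <;> rw [h] <;> norm_num
    have hkey := prod_est (s : ℝ) b ε (I m) (I (m + 1)) (q m) (q (m + 1)) hsR (q_I m)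
    rw [hX, hY, hkey]
    have hm1 : (1 : ℝ) ≤ m := by
      have : 1 ≤ m := by omega
      exact_mod_cast this
    have hmpos : (0 : ℝ) < m := by linarith
    -- bounds
    have b1 : (b : ℝ) * I m ≤ 4 * C := by
      have h2 : (b : ℝ) * I m ≤ (2 * C * q (m + 1)) * I m := mul_le_mul_of_nonneg_right hcase.le hj.le
      have h3 : (2 * C) * (q (m + 1) * I m) ≤ (2 * C) * 2 :=
        mul_le_mul_of_nonneg_left hqj (by linarith)
      linarith
    have b2 : (b : ℝ) * I (m + 1) * m ≤ C := by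
      have h2 : (b : ℝ) * I (m + 1) ≤ (2 * C * q (m + 1)) * I (m + 1) :=
        mul_le_mul_of_nonneg_right hcase.le hi.le
      have h3 : (b : ℝ) * I (m + 1) * m ≤ (2 * C * q (m + 1)) * I (m + 1) * m :=
        mul_le_mul_of_nonneg_right h2 hmpos.le
      have h4 : (2 * C) * (q (m + 1) * I (m + 1) * m) ≤ (2 * C) * (1 / 2) :=
        mul_le_mul_of_nonneg_left hqj' (by linarith)
      linarith
    have b1' : 0 < (b : ℝ) * I m := mul_pos hbR hj
    have b2' : 0 < (b : ℝ) * I (m + 1) := mul_pos hbR hi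
    have c1 : (b * I m) * (b * I (m + 1)) * m ≤ 4 * C * C := by
      have : (b * I m) * (b * I (m + 1) * m) ≤ (4 * C) * C :=
        mul_le_mul b1 b2 (by positivity) (by linarith)
      linarith
    have hw : ε * q (m + 1) ≤ C := by
      have := mul_le_mul_of_nonneg_left hqbR hεpos.le
      linarith [mul_comm ε (b : ℝ)]
    have hw0 : 0 < ε * q (m + 1) := mul_pos hεpos hq
    have hu0 : 0 < ε * q m := mul_pos hεpos hq'
    have hu : ε * q m * m ≤ C := by
      have h2 : ε * ((4 * (m : ℝ) + 2) * q m) ≤ ε * q (m + 1) :=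
        mul_le_mul_of_nonneg_left hqq' hεpos.le
      nlinarith
    have c3 : (ε * q m) * (ε * q (m + 1)) * m ≤ C * C := by
      have : (ε * q m * m) * (ε * q (m + 1)) ≤ C * C := mul_le_mul hu hw hw0.le (by linarith)
      linarith
    have hqmm : (q m : ℝ) ≤ q (m + 1) := by nlinarith
    have c2 : (b * ε) * (q m * I (m + 1)) * m ≤ C * (1 / 2) := by
      have h2 : (q m : ℝ) * I (m + 1) * m ≤ q (m + 1) * I (m + 1) * m := by
        have : (q m : ℝ) * I (m + 1) ≤ q (m + 1) * I (m + 1) :=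
          mul_le_mul_of_nonneg_right hqmm hi.le
        exact mul_le_mul_of_nonneg_right this hmpos.le
      have h3 : (b * ε) * (q m * I (m + 1) * m) ≤ C * (1 / 2) :=
        mul_le_mul h1 (h2.trans hqj') (by positivity) (by linarith)
      linarith
    have c2' : 0 < (b * ε) * (q m * I (m + 1)) := by positivity
    have c1' : 0 < (b * I m) * (b * I (m + 1)) := by positivity
    have c3' : 0 < (ε * q m) * (ε * q (m + 1)) := by positivity
    have htot := abs_bound (s : ℝ) _ _ _ hsa c1' c2' c3'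
    refine (le_of_eq ?_).trans (htot.trans ?_)
    · congr 1
      ring
    rw [le_div_iff₀ (by push_cast; linarith)]
    push_cast
    have hm2 : (m : ℝ) + 1 ≤ 2 * m := by linarith
    have hsum0 : 0 < (b * I m) * (b * I (m + 1)) +
          2 * ((b * ε) * (q m * I (m + 1))) + (ε * q m) * (ε * q (m + 1)) := by linarith
    have hC2 : C ≤ C ^ 2 := by nlinarith
    refine (mul_le_mul_of_nonneg_left hm2 hsum0.le).trans ?_
    have e2 : ((b * I m) * (b * I (m + 1)) +
          2 * ((b * ε) * (q m * I (m + 1))) + (ε * q m) * (ε * q (m + 1))) * (2 * m) =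
        2 * ((b * I m) * (b * I (m + 1)) * m) + 4 * ((b * ε) * (q m * I (m + 1)) * m) +
          2 * ((ε * q m) * (ε * q (m + 1)) * m) := by ring
    rw [e2]
    linarith
  · -- coordinates at level `n`
    obtain ⟨X, Y, s, hs, ha, hbb, hX, hY⟩ := coordsS σ hσ n a b _ rfl
    have hpar := parity n hbb
    by_cases hY0 : Y = 0
    · left
      subst hY0
      have h3 : X = 2 * (X / 2) := by omega
      refine ⟨X / 2, ?_, ?_⟩
      · have : 2 * a = 2 * (X / 2 * r n) := by
          rw [ha, ← mul_assoc, ← h3]; ring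
        linarith
      · have : 2 * b = 2 * (X / 2 * q n) := by
          rw [hbb, ← mul_assoc, ← h3]; ring
        linarith
    · right
      generalize hε : (σ : ℝ) * ((b : ℝ) * exp 1 - a) = ε at *
      apply to_intS s X Y hs
      have hsR : (s : ℝ) * s = 1 := by
        rcases hs with h | h <;> rw [h] <;> norm_num
      have hsa : |(s : ℝ)| = 1 := by
        rcases hs with h | h <;> rw [h] <;> norm_num
      have hkey := prod_est (s : ℝ) b ε (I n) (I (n + 1)) (q n) (q (n + 1)) hsR (q_I n)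
      rw [hX, hY, hkey]
      have hu0 : 0 < ε * q n := mul_pos hεpos hq
      have hw0 : 0 < ε * q (n + 1) := mul_pos hεpos hq1
      have hu : ε * q n ≤ 1 / 2 := by
        have h2 : (b : ℝ) * ε ≥ (2 * C * q n) * ε := mul_le_mul_of_nonneg_right hcase hεpos.le
        have h3 : (2 * C) * (ε * q n) ≤ (2 * C) * (1 / 2) := by nlinarith
        exact le_of_mul_le_mul_left h3 (by linarith)
      have hbI : 1 / 2 ≤ (b : ℝ) * I n := by
        have hbI0 : 0 < (b : ℝ) * I n := mul_pos hbR hi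
        rcases hs with hs | hs
        · rw [hs] at hY
          push_cast at hY
          rcases lt_or_gt_of_ne hY0 with h | h
          · have h5 : (Y : ℝ) ≤ -1 := by
              have : Y ≤ -1 := by omega
              exact_mod_cast this
            exfalso
            nlinarith
          · have h5 : (1 : ℝ) ≤ Y := by
              have : 1 ≤ Y := by omega
              exact_mod_cast this
            nlinarith
        · rw [hs] at hY
          push_cast at hY
          have hYpos : (0 : ℝ) < Y := by rw [hY]; nlinarith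
          have h5 : (1 : ℝ) ≤ Y := by
            have : 0 < Y := by exact_mod_cast hYpos
            have : 1 ≤ Y := by omega
            exact_mod_cast this
          nlinarith
      have hw : ε * q (n + 1) ≤ 4 * C := by
        have h2 : (ε * q (n + 1)) * (b * I n) = (b * ε) * (q (n + 1) * I n) := by ring
        have h3 : (b * ε) * (q (n + 1) * I n) ≤ C * 2 :=
          mul_le_mul h1 hqi (by positivity) (by linarith)
        have h4 : (ε * q (n + 1)) * (1 / 2) ≤ (ε * q (n + 1)) * (b * I n) :=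
          mul_le_mul_of_nonneg_left hbI hw0.le
        linarith
      have b1 : (b : ℝ) * I n ≤ 2 := (mul_le_mul_of_nonneg_right hbqR.le hi.le).trans hqi
      have b2 : (b : ℝ) * I (n + 1) * n ≤ 1 / 2 := by
        have h2 : (b : ℝ) * I (n + 1) ≤ q (n + 1) * I (n + 1) :=
          mul_le_mul_of_nonneg_right hbqR.le hi'.le
        exact (mul_le_mul_of_nonneg_right h2 hnpos.le).trans hqi'
      have b2' : 0 < (b : ℝ) * I (n + 1) := mul_pos hbR hi'
      have b1' : 0 < (b : ℝ) * I n := mul_pos hbR hi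
      have c1 : (b * I n) * (b * I (n + 1)) * n ≤ 1 := by
        have : (b * I n) * (b * I (n + 1) * n) ≤ 2 * (1 / 2) :=
          mul_le_mul b1 b2 (by positivity) (by norm_num)
        linarith
      have hqmm : (q n : ℝ) ≤ q (n + 1) := by nlinarith
      have c2 : (b * ε) * (q n * I (n + 1)) * n ≤ C * (1 / 2) := by
        have h2 : (q n : ℝ) * I (n + 1) * n ≤ q (n + 1) * I (n + 1) * n := by
          have : (q n : ℝ) * I (n + 1) ≤ q (n + 1) * I (n + 1) :=
            mul_le_mul_of_nonneg_right hqmm hi'.le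
          exact mul_le_mul_of_nonneg_right this hnpos.le
        have h3 : (b * ε) * (q n * I (n + 1) * n) ≤ C * (1 / 2) :=
          mul_le_mul h1 (h2.trans hqi') (by positivity) (by linarith)
        linarith
      have hu' : ε * q n * n ≤ C := by
        have h2 : ε * ((4 * (n : ℝ) + 2) * q n) ≤ ε * q (n + 1) :=
          mul_le_mul_of_nonneg_left hqq hεpos.le
        nlinarith
      have c3 : (ε * q n) * (ε * q (n + 1)) * n ≤ C * (4 * C) := by
        have : (ε * q n * n) * (ε * q (n + 1)) ≤ C * (4 * C) :=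
          mul_le_mul hu' hw hw0.le (by linarith)
        linarith
      have c2' : 0 < (b * ε) * (q n * I (n + 1)) := by positivity
      have c1' : 0 < (b * I n) * (b * I (n + 1)) := by positivity
      have c3' : 0 < (ε * q n) * (ε * q (n + 1)) := by positivity
      have htot := abs_bound (s : ℝ) _ _ _ hsa c1' c2' c3'
      refine (le_of_eq ?_).trans (htot.trans ?_)
      · congr 1
        ring
      rw [le_div_iff₀ hnpos]
      have hC2 : C ≤ C ^ 2 := by nlinarith
      have hC3 : 1 ≤ C ^ 2 := by nlinarith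
      have e2 : ((b * I n) * (b * I (n + 1)) +
            2 * ((b * ε) * (q n * I (n + 1))) + (ε * q n) * (ε * q (n + 1))) * n =
          (b * I n) * (b * I (n + 1)) * n + 2 * ((b * ε) * (q n * I (n + 1)) * n) +
            (ε * q n) * (ε * q (n + 1)) * n := by ring
      rw [e2]
      linarith

/-- the quantitative form: `b (b e - a)` close to `± A e / B` -/
theorem lev (σ : ℤ) (hσ : σ = 1 ∨ σ = -1) (A B n0 : ℕ) (hA : 1 ≤ A) (hB : 2 ≤ B) (hB5 : B ≤ 5)
    (hn0 : 2 ^ 22 * A ^ 4 ≤ n0) (a b : ℤ) (hb : (q n0 : ℤ) ≤ b)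
    (h : |(b : ℝ) * (σ * (b * exp 1 - a)) - A * exp 1 / B| ≤ 1 / (20480 * A ^ 2)) :
    ∃ n : ℕ, n0 ≤ n ∧ ∃ t : ℤ, a = t * r n ∧ b = t * q n := by
  obtain ⟨n, hn, h1, h2⟩ := index_ge _ b hb
  have hAR : (1 : ℝ) ≤ A := by exact_mod_cast hA
  have hBR : (2 : ℝ) ≤ B := by exact_mod_cast hB
  have hBR5 : (B : ℝ) ≤ 5 := by exact_mod_cast hB5
  have he1 := Real.exp_one_gt_d9
  have he2 := Real.exp_one_lt_d9
  have hA2 : (1 : ℝ) ≤ (A : ℝ) ^ 2 := by nlinarith
  have hsm : 1 / (20480 * (A : ℝ) ^ 2) ≤ 1 / 20480 := by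
    apply one_div_le_one_div_of_le (by norm_num)
    nlinarith
  have hAe : (A : ℝ) * exp 1 / B ≤ 1.36 * A := by
    rw [div_le_iff₀ (by linarith)]
    nlinarith
  have hAe' : 0.5 ≤ (A : ℝ) * exp 1 / B := by
    rw [le_div_iff₀ (by linarith)]
    nlinarith
  have hnn : (2 : ℝ) ^ 22 * (A : ℝ) ^ 4 ≤ n := by
    have : 2 ^ 22 * A ^ 4 ≤ n := hn0.trans hn
    exact_mod_cast this
  have hA4 : (1 : ℝ) ≤ (A : ℝ) ^ 4 := by nlinarith
  have hnpos : (0 : ℝ) < n := by nlinarith
  have hn2 : 2 ≤ n := by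
    have : (2 : ℝ) ≤ n := by nlinarith
    exact_mod_cast this
  generalize hθ : (b : ℝ) * (σ * (b * exp 1 - a)) = θ at *
  rw [abs_le] at h
  rcases nearS σ hσ (3 * A) (by linarith) n hn2 a b h1 h2 (by rw [hθ]; linarith)
    (by rw [hθ]; linarith) with h' | ⟨N, hN⟩
  · obtain ⟨t, ha, hb'⟩ := h'
    exact ⟨n, hn, t, ha, hb'⟩
  · exfalso
    rw [hθ] at hN
    obtain ⟨m, hm, hlow⟩ := lower (2 * A) (by omega) (B * N)
    have hm1 : m < 16 * A := by
      have : m < 2 ^ m := Nat.lt_two_pow_self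
      omega
    have hmR : (4 : ℝ) * m + 3 ≤ 64 * A := by
      have : 4 * m + 3 ≤ 64 * A := by omega
      exact_mod_cast this
    have h3 : 1 / (1024 * (A : ℝ) ^ 2) ≤ |2 * A * exp 1 - B * N| := by
      push_cast at hlow
      refine le_trans ?_ hlow
      apply one_div_le_one_div_of_le (by positivity)
      nlinarith
    have h4 : |2 * A * exp 1 - B * N| ≤ 5 * |2 * (A * exp 1 / B) - N| := by
      have e : 2 * A * exp 1 - B * N = B * (2 * (A * exp 1 / B) - N) := by
        field_simp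
      rw [e, abs_mul, abs_of_pos (by linarith)]
      exact mul_le_mul_of_nonneg_right hBR5 (abs_nonneg _)
    have h5 : |2 * (A * exp 1 / B) - N| ≤ 12 * (3 * (A : ℝ)) ^ 2 / n + 2 * (1 / (20480 * A ^ 2)) := by
      rw [abs_le] at hN ⊢
      constructor <;> linarith
    have h6 : 12 * (3 * (A : ℝ)) ^ 2 / n ≤ 1 / (38000 * (A : ℝ) ^ 2) := by
      rw [div_le_div_iff₀ hnpos (by positivity)]
      nlinarith
    have h7 : 1 / (1024 * (A : ℝ) ^ 2) ≤ 5 * (1 / (38000 * (A : ℝ) ^ 2) + 2 * (1 / (20480 * A ^ 2))) := by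
      linarith
    have hx : 0 < 1 / (A : ℝ) ^ 2 := by positivity
    have g1 : 1 / (1024 * (A : ℝ) ^ 2) = (1 / 1024) * (1 / (A : ℝ) ^ 2) := by field_simp
    have g2 : 1 / (38000 * (A : ℝ) ^ 2) = (1 / 38000) * (1 / (A : ℝ) ^ 2) := by field_simp
    have g3 : 1 / (20480 * (A : ℝ) ^ 2) = (1 / 20480) * (1 / (A : ℝ) ^ 2) := by field_simp
    rw [g1, g2, g3] at h7
    nlinarith

end Pool.Agent.V5helper65.EE
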