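import Mathlib
import Pool.Agent.V5helper65.EE.Near

set_option autoImplicit false

namespace Pool.Agent.V5helper65.EE

open Real Pool.Agent.H43R2.Cplx.EMeas Pool.Agent.H364R2.EE
open Pool.Agent.Results.MP_58ae59_nt.PowersNearOne

theorem q_cube (n : ℕ) (hn : 6 ≤ n) : (n : ℝ) ^ 3 ≤ q n := by
  obtain ⟨m, rfl⟩ : ∃ m, n = m + 3 := ⟨n - 3, by omega⟩
  have h1 := (basics1 m (by omega)).2.2.2.2.2.1
  have h2 := (basics1 (m + 1) (by omega)).2.2.2.2.2.1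
  have h3 := (basics1 (m + 2) (by omega)).2.2.2.2.2.1
  have hq : (1 : ℝ) ≤ q m := by exact_mod_cast (q_pos m).1
  have hm : (3 : ℝ) ≤ m := by
    have : 3 ≤ m := by omega
    exact_mod_cast this
  push_cast at h2 h3 ⊢
  have a1 : (m : ℝ) + 3 ≤ (q (m + 1) : ℝ) := by nlinarith
  have a2 : ((m : ℝ) + 3) ^ 2 ≤ (q (m + 1 + 1) : ℝ) := by nlinarith
  have h3' : (4 * ((m : ℝ) + 2) + 2) * (q (m + 2) : ℝ) ≤ q (m + 3) := h3
  have a2' : ((m : ℝ) + 3) ^ 2 ≤ (q (m + 2) : ℝ) := a2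
  have : ((m : ℝ) + 3) ^ 3 = ((m : ℝ) + 3) * ((m : ℝ) + 3) ^ 2 := by ring
  rw [this]
  have h5 : ((m : ℝ) + 3) * ((m : ℝ) + 3) ^ 2 ≤ (4 * ((m : ℝ) + 2) + 2) * (q (m + 2) : ℝ) :=
    mul_le_mul (by linarith) a2' (by positivity) (by linarith)
  linarith

/-- the correction term `x` in `q n * I n * (4 n + 2 + x) = 2` -/
theorem corr (n : ℕ) (hn : 3 ≤ n) : ∃ x : ℝ, 0 < x ∧ x ≤ 1 ∧
    (q n : ℝ) * I n * (4 * n + 2 + x) = 2 ∧ |(2 * (n : ℝ) + 1) * x - 1| ≤ 1 / n := by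
  obtain ⟨m, rfl⟩ : ∃ m, n = m + 2 := ⟨n - 2, by omega⟩
  have hm : (1 : ℝ) ≤ m := by
    have : 1 ≤ m := by omega
    exact_mod_cast this
  have q0 : (0 : ℝ) < q m := by exact_mod_cast (q_pos m).1
  have q1 : (0 : ℝ) < q (m + 1) := by exact_mod_cast (q_pos m).2
  have q2 : (0 : ℝ) < q (m + 2) := by exact_mod_cast (q_pos (m + 1)).2
  have e2 : ((q (m + 2) : ℕ) : ℝ) = (4 * (m : ℝ) + 6) * q (m + 1) + q m := by
    rw [show q (m + 2) = (4 * m + 6) * q (m + 1) + q m from rfl]; push_cast; ring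
  have e3 : ((q (m + 2 + 1) : ℕ) : ℝ) = (4 * (m : ℝ) + 10) * q (m + 2) + q (m + 1) := by
    rw [show q (m + 2 + 1) = (4 * (m + 1) + 6) * q (m + 1 + 1) + q (m + 1) from rfl]
    push_cast; ring
  have hmono : (q m : ℝ) ≤ q (m + 1) := by exact_mod_cast q_mono (Nat.le_succ m)
  have i2 := I_pos (m + 2)
  have i3 := I_pos (m + 2 + 1)
  have i4 := I_pos (m + 2 + 2)
  have r2 := I_rec (m + 2)
  have r3 := I_rec (m + 2 + 1)
  have i5 := I_pos (m + 2 + 1 + 2)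
  push_cast at r2 r3
  have hi4 : I (m + 2 + 2) ≤ I (m + 2 + 1) := by
    have r3' : I (m + 2 + 1 + 2) = I (m + 2 + 1) - (4 * ((m : ℝ) + 2 + 1) + 6) * I (m + 2 + 2) := by
      rw [r3]
    nlinarith
  have hqI := q_I (m + 2)
  refine ⟨q (m + 1) / q (m + 2) + I (m + 2 + 1) / I (m + 2), by positivity, ?_, ?_, ?_⟩
  · have a1 : (q (m + 1) : ℝ) / q (m + 2) ≤ 1 / 2 := by
      rw [div_le_iff₀ q2, e2]; nlinarith
    have a2 : I (m + 2 + 1) / I (m + 2) ≤ 1 / 2 := by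
      rw [div_le_iff₀ i2]; nlinarith
    linarith
  · push_cast
    have : (q (m + 2) : ℝ) * I (m + 2) * (4 * ((m : ℝ) + 2) + 2 +
        (q (m + 1) / q (m + 2) + I (m + 2 + 1) / I (m + 2))) =
        ((4 * (m : ℝ) + 10) * q (m + 2) + q (m + 1)) * I (m + 2) + q (m + 2) * I (m + 2 + 1) := by
      field_simp
      ring
    rw [this, ← e3]
    exact hqI
  · push_cast
    have b1 : (q (m + 1) : ℝ) / q (m + 2) ≤ 1 / (4 * m + 6) := by
      rw [div_le_div_iff₀ q2 (by positivity), e2]; nlinarith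
    have b2 : 1 / (4 * (m : ℝ) + 7) ≤ (q (m + 1) : ℝ) / q (m + 2) := by
      rw [div_le_div_iff₀ (by positivity) q2, e2]; nlinarith
    have b3 : I (m + 2 + 1) / I (m + 2) ≤ 1 / (4 * m + 14) := by
      rw [div_le_div_iff₀ i2 (by positivity)]; nlinarith
    have b4 : 1 / (4 * (m : ℝ) + 15) ≤ I (m + 2 + 1) / I (m + 2) := by
      rw [div_le_div_iff₀ (by positivity) i2]; nlinarith
    rw [abs_le]
    constructor
    · have c1 : -(1 / ((m : ℝ) + 2)) ≤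
          (2 * ((m : ℝ) + 2) + 1) * (1 / (4 * (m : ℝ) + 7) + 1 / (4 * (m : ℝ) + 15)) - 1 := by
        rw [← sub_nonneg]
        have : (2 * ((m : ℝ) + 2) + 1) * (1 / (4 * (m : ℝ) + 7) + 1 / (4 * (m : ℝ) + 15)) - 1 -
            -(1 / ((m : ℝ) + 2)) = (12 * (m : ℝ) ^ 2 + 85 * m + 115) /
              ((4 * (m : ℝ) + 7) * (4 * (m : ℝ) + 15) * ((m : ℝ) + 2)) := by
          field_simp
          ring
        rw [this]
        positivity
      have c2 : (2 * ((m : ℝ) + 2) + 1) * (1 / (4 * (m : ℝ) + 7) + 1 / (4 * (m : ℝ) + 15)) ≤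
          (2 * ((m : ℝ) + 2) + 1) * (q (m + 1) / q (m + 2) + I (m + 2 + 1) / I (m + 2)) :=
        mul_le_mul_of_nonneg_left (by linarith) (by positivity)
      linarith
    · have c1 : (2 * ((m : ℝ) + 2) + 1) * (1 / (4 * (m : ℝ) + 6) + 1 / (4 * (m : ℝ) + 14)) - 1 ≤
          1 / ((m : ℝ) + 2) := by
        rw [← sub_nonneg]
        have : 1 / ((m : ℝ) + 2) - ((2 * ((m : ℝ) + 2) + 1) *
            (1 / (4 * (m : ℝ) + 6) + 1 / (4 * (m : ℝ) + 14)) - 1) =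
            (16 * (m : ℝ) ^ 2 + 64 * m + 52) /
              ((4 * (m : ℝ) + 6) * (4 * (m : ℝ) + 14) * ((m : ℝ) + 2)) := by
          field_simp
          ring
        rw [this]
        positivity
      have c2 : (2 * ((m : ℝ) + 2) + 1) * (q (m + 1) / q (m + 2) + I (m + 2 + 1) / I (m + 2)) ≤
          (2 * ((m : ℝ) + 2) + 1) * (1 / (4 * (m : ℝ) + 6) + 1 / (4 * (m : ℝ) + 14)) :=
        mul_le_mul_of_nonneg_left (by linarith) (by positivity)
      linarith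

/-- `q n ≤ (4 n) ^ n` -/
theorem q_le_pow (n : ℕ) (hn : 1 ≤ n) : (q n : ℝ) ≤ (4 * n) ^ n := by
  induction n with
  | zero => omega
  | succ n ih =>
    rcases Nat.eq_zero_or_pos n with h0 | h0
    · subst h0
      simp [q]
    · have h1 := q_rec n h0
      have h2 : (q (n - 1) : ℝ) ≤ q n := by exact_mod_cast q_mono (Nat.sub_le n 1)
      have h3 := ih h0
      have hq : (0 : ℝ) ≤ q n := by positivity
      calc ((q (n + 1) : ℕ) : ℝ) = (4 * (n : ℝ) + 2) * q n + q (n - 1) := h1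
        _ ≤ (4 * ((n : ℝ) + 1)) * q n := by nlinarith
        _ ≤ (4 * ((n : ℝ) + 1)) * (4 * n) ^ n :=
            mul_le_mul_of_nonneg_left h3 (by positivity)
        _ ≤ (4 * ((n : ℝ) + 1)) * (4 * ((n : ℝ) + 1)) ^ n := by
            apply mul_le_mul_of_nonneg_left _ (by positivity)
            apply pow_le_pow_left₀ (by positivity)
            linarith
        _ = (4 * ((n + 1 : ℕ) : ℝ)) ^ (n + 1) := by push_cast; rw [pow_succ]; ring

/-- `n log (4 n) ≤ 4 * (4 ^ (1/4)) * n ^ (5/4)`, with the constant in the form `2 ^ (5/2)` -/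
theorem nlog (x : ℝ) (hx : 0 < x) : x * log (4 * x) ≤ 2 ^ (5 / 2 : ℝ) * x ^ (5 / 4 : ℝ) := by
  have h := Real.log_le_rpow_div (x := 4 * x) (ε := 1 / 4) (by positivity) (by norm_num)
  have h1 : (4 * x) ^ (1 / 4 : ℝ) / (1 / 4) = 2 ^ (5 / 2 : ℝ) * x ^ (1 / 4 : ℝ) := by
    rw [Real.mul_rpow (by norm_num) hx.le]
    have : (4 : ℝ) ^ (1 / 4 : ℝ) = 2 ^ (1 / 2 : ℝ) := by
      rw [show (4 : ℝ) = 2 ^ (2 : ℝ) by norm_num, ← Real.rpow_mul (by norm_num)]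
      norm_num
    rw [this]
    have h2 : (2 : ℝ) ^ (5 / 2 : ℝ) = 4 * 2 ^ (1 / 2 : ℝ) := by
      rw [show (5 / 2 : ℝ) = 2 + 1 / 2 by norm_num, Real.rpow_add (by norm_num)]
      norm_num
    rw [h2]
    ring
  rw [h1] at h
  calc x * log (4 * x) ≤ x * (2 ^ (5 / 2 : ℝ) * x ^ (1 / 4 : ℝ)) :=
        mul_le_mul_of_nonneg_left h hx.le
    _ = 2 ^ (5 / 2 : ℝ) * (x ^ (1 : ℝ) * x ^ (1 / 4 : ℝ)) := by rw [Real.rpow_one]; ring
    _ = _ := by
      rw [← Real.rpow_add hx]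
      norm_num

/-- `log q n ≤ n log (4 n)` -/
theorem log_q_le (n : ℕ) (hn : 1 ≤ n) :
    log (q n) ≤ 2 ^ (5 / 2 : ℝ) * (n : ℝ) ^ (5 / 4 : ℝ) := by
  have hnR : (0 : ℝ) < n := by exact_mod_cast hn
  have hq : (0 : ℝ) < q n := by exact_mod_cast (q_pos n).1
  refine le_trans ?_ (nlog n hnR)
  have h1 := Real.log_le_log hq (q_le_pow n hn)
  rw [Real.log_pow] at h1
  exact h1

theorem rpow_D (D : ℝ) (hD : 0 < D) (s : ℝ) :
    ((2 : ℝ) ^ s * D ^ 16) ^ (5 / 4 : ℝ) = 2 ^ (s * (5 / 4)) * D ^ 20 := by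
  rw [Real.mul_rpow (by positivity) (by positivity), ← Real.rpow_mul (by norm_num)]
  congr 1
  rw [← Real.rpow_natCast D 16, ← Real.rpow_mul hD.le, ← Real.rpow_natCast D 20]
  norm_num

/-- threshold for one level -/
theorem thr1 (D c : ℕ) (hD : 1 ≤ D) (hc : 1 ≤ c) (h : 2 ^ 40 * (D : ℝ) ^ 20 ≤ log c) :
    q (2 ^ 30 * D ^ 16) ≤ c := by
  have hDR : (0 : ℝ) < D := by exact_mod_cast hD
  have hcR : (0 : ℝ) < c := by exact_mod_cast hc
  have hn : 1 ≤ 2 ^ 30 * D ^ 16 := Nat.mul_pos (by norm_num) (by positivity)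
  have h1 := log_q_le (2 ^ 30 * D ^ 16) hn
  have h2 : ((2 ^ 30 * D ^ 16 : ℕ) : ℝ) = 2 ^ (30 : ℝ) * (D : ℝ) ^ 16 := by
    push_cast
    congr 1
    norm_num
  rw [h2, rpow_D _ hDR, ← mul_assoc, ← Real.rpow_add (by norm_num)] at h1
  have h3 : (2 : ℝ) ^ (5 / 2 + 30 * (5 / 4) : ℝ) = 2 ^ 40 := by
    rw [show (5 / 2 + 30 * (5 / 4) : ℝ) = (40 : ℕ) by norm_num, Real.rpow_natCast]
  rw [h3] at h1
  have h4 := h1.trans h
  have hq : (0 : ℝ) < q (2 ^ 30 * D ^ 16) := by exact_mod_cast (q_pos _).1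
  have := (Real.log_le_log_iff hq hcR).1 h4
  exact_mod_cast this

/-- threshold for two levels -/
theorem thr2 (D c : ℕ) (hD : 1 ≤ D) (h : 2 ^ 31 * (D : ℝ) ^ 20 ≤ log (log c)) :
    q (q (2 ^ 22 * D ^ 16)) ≤ c := by
  have hDR : (1 : ℝ) ≤ D := by exact_mod_cast hD
  have hD20 : (1 : ℝ) ≤ (D : ℝ) ^ 20 := one_le_pow₀ hDR
  have hll : 0 < log (log c) := by nlinarith
  have hl : 0 < log c := by
    rcases lt_trichotomy (log (c : ℝ)) 0 with h0 | h0 | h0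
    · exact absurd h0 (not_lt.2 (Real.log_natCast_nonneg c))
    · rw [h0] at hll; simp at hll
    · exact h0
  have hcR : (0 : ℝ) < c := by
    rcases Nat.eq_zero_or_pos c with h0 | h0
    · rw [h0] at hl; simp at hl
    · exact_mod_cast h0
  set M : ℕ := 2 ^ 22 * D ^ 16 with hM
  have hM1 : 1 ≤ M := Nat.mul_pos (by norm_num) (by positivity)
  have hqM : 1 ≤ q M := (q_pos M).1
  have hqMR : (1 : ℝ) ≤ q M := by exact_mod_cast hqM
  have h1 := log_q_le M hM1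
  have h2 : (M : ℝ) = 2 ^ (22 : ℝ) * (D : ℝ) ^ 16 := by
    rw [hM]
    push_cast
    congr 1
    norm_num
  rw [h2, rpow_D _ (by linarith), ← mul_assoc, ← Real.rpow_add (by norm_num)] at h1
  have h3 : (2 : ℝ) ^ (5 / 2 + 22 * (5 / 4) : ℝ) = 2 ^ 30 := by
    rw [show (5 / 2 + 22 * (5 / 4) : ℝ) = (30 : ℕ) by norm_num, Real.rpow_natCast]
  rw [h3] at h1
  -- second level
  have h4 := log_q_le (q M) hqM
  have hl2 : log (2 ^ (5 / 2 : ℝ) * (q M : ℝ) ^ (5 / 4 : ℝ)) = 5 / 2 * log 2 + 5 / 4 * log (q M) := by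
    rw [Real.log_mul (by positivity) (by positivity), Real.log_rpow (by norm_num),
      Real.log_rpow (by linarith)]
  have hlog2 := Real.log_two_lt_d9
  have h5 : log (2 ^ (5 / 2 : ℝ) * (q M : ℝ) ^ (5 / 4 : ℝ)) ≤ log (log c) := by
    rw [hl2]
    nlinarith
  have h6 := (Real.log_le_log_iff (by positivity) hl).1 h5
  have h7 := h4.trans h6
  have hq : (0 : ℝ) < q (q M) := by exact_mod_cast (q_pos _).1
  have := (Real.log_le_log_iff hq hcR).1 h7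
  exact_mod_cast this

end Pool.Agent.V5helper65.EE
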