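import Mathlib
import Pool.Agent.V5helper65.EE.Core



set_option autoImplicit false

namespace Pool.Agent.V5helper65.EE

open Real Pool.Agent.H43R2.Cplx.EMeas Pool.Agent.H364R2.EE
open Pool.Agent.Results.MP_58ae59_nt.PowersNearOne

/-- consequences of the first threshold -/
theorem small_diff (D b : ℕ) (hD : 1 ≤ D) (h : q (2 ^ 30 * D ^ 16) ≤ b) : D < b := by
  have h1 : D ≤ D ^ 16 := Nat.le_self_pow (by norm_num) D
  have h2 : 6 ≤ 2 ^ 30 * D ^ 16 := by
    have : 1 ≤ D ^ 16 := Nat.one_le_pow _ _ hD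
    omega
  have h3 := q_cube _ h2
  have h4 : (2 ^ 30 * D ^ 16) ^ 3 ≤ q (2 ^ 30 * D ^ 16) := by exact_mod_cast h3
  have h5 : 2 ^ 30 * D ^ 16 ≤ (2 ^ 30 * D ^ 16) ^ 3 := Nat.le_self_pow (by norm_num) _
  omega

theorem even_setup (a b : ℕ) (hab : b < a) (hcop : Nat.Coprime a b) (he : Even (a + b)) :
    ∃ k c : ℕ, a = b + 2 * k ∧ c = b + k ∧ 1 ≤ k ∧ b % 2 = 1 ∧
      ((a : ℝ) / (b : ℝ)) = ((c : ℝ) + k) / ((c : ℝ) - k) := by
  obtain ⟨c, hc⟩ := he
  have hnot : ¬ (a % 2 = 0 ∧ b % 2 = 0) := by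
    rintro ⟨a1, a2⟩
    have a3 : 2 ∣ Nat.gcd a b := Nat.dvd_gcd (by omega) (by omega)
    rw [hcop] at a3
    omega
  obtain ⟨k, hk⟩ : ∃ k, a = b + 2 * k := ⟨(a - b) / 2, by omega⟩
  refine ⟨k, b + k, hk, rfl, by omega, by omega, ?_⟩
  rw [hk]
  push_cast
  have e1 : (b : ℝ) + k - k = b := by ring
  rw [e1]
  congr 1
  ring

theorem odd_ratio (a b k : ℕ) (hk : a = b + k) :
    ((a : ℝ) / (b : ℝ)) = (((a + b : ℕ) : ℝ) + k) / (((a + b : ℕ) : ℝ) - k) := by
  rw [hk]
  push_cast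
  have e1 : (b : ℝ) + k + b - k = 2 * b := by ring
  have e2 : (b : ℝ) + k + b + k = 2 * (b + k) := by ring
  rw [e1, e2, mul_div_mul_left _ _ (by norm_num)]

/-- both `c` and `k` are odd: impossible -/
theorem odd_case (a b j m : ℕ) (hab : b < a) (hj : 1 ≤ j)
    (hbig : q (2 ^ 30 * (j * (a - b)) ^ 16) ≤ b) (ho : Odd (a + b))
    (h : exp (exp 1) ^ j = ((a : ℝ) / (b : ℝ)) ^ m) : False := by
  obtain ⟨k, hk⟩ : ∃ k, a = b + k := ⟨a - b, by omega⟩
  have hk1 : 1 ≤ k := by omega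
  have hkk : a - b = k := by omega
  rw [hkk] at hbig
  have hsd := small_diff (j * k) b (Nat.mul_pos hj hk1) hbig
  have hkj : k ≤ j * k := Nat.le_mul_of_pos_left k hj
  rw [odd_ratio a b k hk] at h
  obtain ⟨hm0, -, ⟨n, -, t, ha', hb'⟩, hP⟩ :=
    coreU k j (a + b) m (2 ^ 30 * (j * k) ^ 16) hk1 hj (by omega) le_rfl (by omega) h
  obtain ⟨h1, h2⟩ := core_val k j (a + b) m hk1 hj (by omega) hm0 ⟨n, by
    have : ((2 * m * k : ℕ) : ℤ) * q n = ((j * (a + b) : ℕ) : ℤ) * r n := by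
      rw [ha', hb']; ring
    exact_mod_cast this⟩ hP
  have hcodd : (a + b) % 2 = 1 := Nat.odd_iff.1 ho
  have hkodd : k % 2 = 1 := by omega
  have hsq : k ^ 2 < 3 * (a + b) ^ 2 := by nlinarith
  obtain ⟨w, hw⟩ : ∃ w, 3 * (a + b) ^ 2 = w + k ^ 2 := ⟨3 * (a + b) ^ 2 - k ^ 2, by omega⟩
  have hw' : 3 * (a + b) ^ 2 - k ^ 2 = w := by omega
  have hw0 : w ≠ 0 := by omega
  rw [hw'] at h2
  have hweven : w % 2 = 0 := by
    have e3 : (3 * (a + b) ^ 2) % 2 = (w + k ^ 2) % 2 := by rw [hw]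
    obtain ⟨c', hc'⟩ : ∃ c', a + b = 2 * c' + 1 := ⟨(a + b) / 2, by omega⟩
    obtain ⟨k', hk'⟩ : ∃ k', k = 2 * k' + 1 := ⟨k / 2, by omega⟩
    rw [hc', hk'] at e3
    ring_nf at e3
    omega
  have hwe := val_even w hweven hw0
  rw [val_odd k hkodd, val_odd (a + b) hcodd] at h1 h2
  omega

/-- the second part -/
theorem partB (a b j m : ℕ) (hab : b < a) (hcop : Nat.Coprime a b) (hj : 1 ≤ j)
    (hbig : q (2 ^ 30 * (j * (a - b)) ^ 16) ≤ b)
    (h : exp (exp 1) ^ j = ((a : ℝ) / (b : ℝ)) ^ m) :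
    4 ∣ j ∧ 4 ∣ a - b ∧ padicValNat 2 j = padicValNat 2 m + padicValNat 2 (a - b) := by
  rcases Nat.even_or_odd (a + b) with he | ho
  · obtain ⟨k, c, hk, hc, hk1, hbodd, hrat⟩ := even_setup a b hab hcop he
    have hkk : a - b = 2 * k := by omega
    rw [hkk] at hbig
    have hsd := small_diff (j * (2 * k)) b (Nat.mul_pos hj (by omega)) hbig
    have hkj : 2 * k ≤ j * (2 * k) := Nat.le_mul_of_pos_left _ hj
    rw [hrat] at h
    have hmono : 2 ^ 30 * (j * k) ^ 16 ≤ 2 ^ 30 * (j * (2 * k)) ^ 16 := by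
      apply Nat.mul_le_mul_left
      apply Nat.pow_le_pow_left
      apply Nat.mul_le_mul_left
      omega
    obtain ⟨hm0, -, ⟨n, -, t, ha', hb'⟩, hP⟩ :=
      coreU k j c m (2 ^ 30 * (j * k) ^ 16) hk1 hj (by omega) le_rfl
        ((q_mono hmono).trans (hbig.trans (by omega))) h
    obtain ⟨h1, h2⟩ := core_val k j c m hk1 hj (by omega) hm0 ⟨n, by
      have : ((2 * m * k : ℕ) : ℤ) * q n = ((j * c : ℕ) : ℤ) * r n := by
        rw [ha', hb']; ring
      exact_mod_cast this⟩ hP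
    have hkc : k < c := by omega
    have hsq : k ^ 2 ≤ 3 * c ^ 2 := by nlinarith
    obtain ⟨w, hw⟩ : ∃ w, 3 * c ^ 2 = w + k ^ 2 := ⟨3 * c ^ 2 - k ^ 2, by omega⟩
    have hw' : 3 * c ^ 2 - k ^ 2 = w := by omega
    rw [hw'] at h2
    have hwodd : w % 2 = 1 := by
      have e3 : (3 * c ^ 2) % 2 = (w + k ^ 2) % 2 := by rw [hw]
      rcases Nat.even_or_odd' c with ⟨c', hc' | hc'⟩ <;>
        rcases Nat.even_or_odd' k with ⟨k', hk' | hk'⟩
      · omega
      · rw [hc', hk'] at e3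
        ring_nf at e3
        omega
      · rw [hc', hk'] at e3
        ring_nf at e3
        omega
      · omega
    rw [val_odd w hwodd] at h2
    rcases Nat.mod_two_eq_zero_or_one k with hk2 | hk2
    · have hc2 : c % 2 = 1 := by omega
      rw [val_odd c hc2] at h1 h2
      have hv2 : padicValNat 2 2 = 1 := padicValNat.self (by norm_num)
      have : Fact (Nat.Prime 2) := ⟨Nat.prime_two⟩
      have hvk : padicValNat 2 (a - b) = 1 + padicValNat 2 k := by
        rw [hkk, padicValNat.mul (by norm_num) (by omega), hv2]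
      have hke := val_even k hk2 (by omega)
      refine ⟨?_, by omega, by omega⟩
      have h5 : 2 ^ 2 ∣ j := by
        rw [padicValNat_dvd_iff_le (by omega)]
        omega
      simpa using h5
    · exfalso
      have hc2 : c % 2 = 0 := by omega
      have hce := val_even c hc2 (by omega)
      rw [val_odd k hk2] at h1 h2
      omega
  · exact (odd_case a b j m hab hj hbig ho h).elim

/-- the first part for fractions in lowest terms -/
theorem partA (a b j m : ℕ) (hab : b < a) (hcop : Nat.Coprime a b) (hj : 1 ≤ j)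
    (hbig : q (q (2 ^ 22 * (j * (a - b)) ^ 16)) ≤ b)
    (h : exp (exp 1) ^ j = ((a : ℝ) / (b : ℝ)) ^ m) : False := by
  have hcmp : ∀ E : ℕ, 1 ≤ E → 2 ^ 30 * E ^ 16 ≤ q (2 ^ 22 * E ^ 16) := by
    intro E hE
    have h1 : 1 ≤ E ^ 16 := Nat.one_le_pow _ _ hE
    have h2 : 6 ≤ 2 ^ 22 * E ^ 16 := by omega
    have h3 : (2 ^ 22 * E ^ 16) ^ 3 ≤ q (2 ^ 22 * E ^ 16) := by exact_mod_cast q_cube _ h2
    have h4 : 2 ^ 30 * E ^ 16 ≤ (2 ^ 22 * E ^ 16) ^ 3 := by
      calc 2 ^ 30 * E ^ 16 ≤ 2 ^ 66 * (E ^ 16) ^ 3 :=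
            Nat.mul_le_mul (by norm_num) (Nat.le_self_pow (by norm_num) _)
        _ = (2 ^ 22 * E ^ 16) ^ 3 := by ring
    omega
  have hDpos : 1 ≤ j * (a - b) := Nat.mul_pos hj (by omega)
  have hbig1 : q (2 ^ 30 * (j * (a - b)) ^ 16) ≤ b := (q_mono (hcmp _ hDpos)).trans hbig
  rcases Nat.even_or_odd (a + b) with he | ho
  · obtain ⟨k, c, hk, hc, hk1, hbodd, hrat⟩ := even_setup a b hab hcop he
    have hkk : a - b = 2 * k := by omega
    rw [hkk] at hbig hbig1
    have hsd := small_diff (j * (2 * k)) b (Nat.mul_pos hj (by omega)) hbig1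
    have hkj : 2 * k ≤ j * (2 * k) := Nat.le_mul_of_pos_left _ hj
    rw [hrat] at h
    have hmono : 2 ^ 22 * (j * k) ^ 16 ≤ 2 ^ 22 * (j * (2 * k)) ^ 16 := by
      apply Nat.mul_le_mul_left
      apply Nat.pow_le_pow_left
      apply Nat.mul_le_mul_left
      omega
    have hE : 1 ≤ j * k := Nat.mul_pos hj hk1
    obtain ⟨hm0, hest, ⟨n, hn, t, ha', hb'⟩, -⟩ :=
      coreU k j c m (q (2 ^ 22 * (j * k) ^ 16)) hk1 hj (by omega) (hcmp _ hE)
        ((q_mono (q_mono hmono)).trans (hbig.trans (by omega))) h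
    have hval := level2 k j c m n hk1 hj (by omega) ((hcmp _ hE).trans hn) hn t ha' hb' hest
    -- valuations
    have : Fact (Nat.Prime 2) := ⟨Nat.prime_two⟩
    have hc0 : 0 < c := by omega
    have hjc0 : 0 < j * c := Nat.mul_pos hj hc0
    have ht0 : 0 < t := by
      have h1 : (0 : ℤ) < t * q n := by rw [← hb']; exact_mod_cast hjc0
      exact (pos_iff_pos_of_mul_pos h1).2 (by exact_mod_cast (q_pos n).1)
    have hT : t = ((t.toNat : ℕ) : ℤ) := by omega
    rw [hT, padicValInt.of_nat] at hval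
    have hjc : j * c = t.toNat * q n := by
      rw [hT] at hb'
      exact_mod_cast hb'
    have hT0 : t.toNat ≠ 0 := by omega
    have hq0 : q n ≠ 0 := by
      have := (q_pos n).1
      omega
    have hv := congrArg (padicValNat 2) hjc
    rw [padicValNat.mul (by omega) (by omega), padicValNat.mul hT0 hq0,
      val_odd (q n) (q_odd n).1, hval, padicValNat.mul (by omega) (by omega)] at hv
    rcases Nat.mod_two_eq_zero_or_one k with hk2 | hk2
    · have hc2 : c % 2 = 1 := by omega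
      have hke := val_even k hk2 (by omega)
      rw [val_odd c hc2] at hv
      omega
    · have hc2 : c % 2 = 0 := by omega
      have hce := val_even c hc2 (by omega)
      rw [val_odd k hk2] at hv
      omega
  · exact odd_case a b j m hab hj hbig1 ho h

/-- removing a common factor -/
theorem reduce (D' g b' : ℕ) (hD' : 1 ≤ D') (hg : 1 ≤ g)
    (h : 2 ^ 31 * ((D' * g : ℕ) : ℝ) ^ 20 ≤ log (log ((b' * g : ℕ) : ℝ))) :
    2 ^ 31 * (D' : ℝ) ^ 20 ≤ log (log (b' : ℝ)) := by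
  rcases Nat.lt_or_ge g 2 with hg2 | hg2
  · have : g = 1 := by omega
    subst this
    simpa using h
  · have hD1 : (1 : ℝ) ≤ D' := by exact_mod_cast hD'
    have hgR : (2 : ℝ) ≤ g := by exact_mod_cast hg2
    have hb0 : b' ≠ 0 := by
      rintro rfl
      simp at h
      have : (0 : ℝ) < 2 ^ 31 * ((D' : ℝ) * g) ^ 20 := by positivity
      linarith
    have hbR : (1 : ℝ) ≤ b' := by exact_mod_cast Nat.one_le_iff_ne_zero.2 hb0
    push_cast at h
    set E : ℝ := (D' : ℝ) * g with hE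
    have hE2 : 2 ≤ E := by rw [hE]; nlinarith
    have hE20 : E ≤ E ^ 20 := by
      have := pow_le_pow_right₀ (show (1 : ℝ) ≤ E by linarith) (show 1 ≤ 20 by norm_num)
      simpa using this
    set L : ℝ := log ((b' : ℝ) * g) with hL
    have hlogL : 0 < log L := by nlinarith
    have hL0 : 0 < L := by
      have hLn : 0 ≤ L := Real.log_nonneg (by nlinarith)
      rcases hLn.lt_or_eq with h0 | h0
      · exact h0
      · rw [← h0] at hlogL; simp at hlogL
    have hexp : exp (2 ^ 31 * E ^ 20) ≤ L := by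
      rw [← Real.le_log_iff_exp_le hL0]; exact h
    have hL2 : 2 ^ 31 * E ^ 20 + 1 ≤ L := (Real.add_one_le_exp _).trans hexp
    have hlg : log g ≤ L / 2 := by
      have h1 : log (g : ℝ) ≤ g - 1 := Real.log_le_sub_one_of_pos (by linarith)
      have h2 : (g : ℝ) ≤ E := by rw [hE]; nlinarith
      nlinarith
    have hsplit : L = log b' + log g := by
      rw [hL, Real.log_mul (by linarith) (by linarith)]
    have hlb : L / 2 ≤ log b' := by linarith
    have h3 : log (L / 2) ≤ log (log b') := Real.log_le_log (by linarith) hlb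
    rw [Real.log_div hL0.ne' (by norm_num)] at h3
    have hlog2 := Real.log_two_lt_d9
    have h4 : (D' : ℝ) ^ 20 * 2 ^ 20 ≤ E ^ 20 := by
      rw [hE, mul_pow]
      exact mul_le_mul_of_nonneg_left (pow_le_pow_left₀ (by norm_num) hgR 20) (by positivity)
    have h5 : (1 : ℝ) ≤ (D' : ℝ) ^ 20 := one_le_pow₀ hD1
    nlinarith


end Pool.Agent.V5helper65.EE
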